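import Pool.Agent.H521.G.T4Qe

open MeasureTheory Set Filter Topology
open scoped ENNReal NNReal ComplexConjugate

namespace Pool.Agent.Results.MP_69be96_nt.GapStatisticsAndLargeGapMass

/-- A sequence of (Beurling) generalised primes `1 < p 0 < p 1 < ⋯ → ∞`. -/
structure GenPrimes (p : ℕ → ℝ) : Prop where
  one_lt : 1 < p 0
  strictMono : StrictMono p
  tendsto : Tendsto p atTop atTop

/-- The generalised integer `∏ p_j ^ (e j)` with exponent vector `e`. -/
noncomputable def genInt (p : ℕ → ℝ) (e : ℕ →₀ ℕ) : ℝ := e.prod fun j k => p j ^ k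

/-- `N_P(x)`, the number of generalised integers `≤ x`, counted with multiplicity. -/
noncomputable def countInts (p : ℕ → ℝ) (x : ℝ) : ℕ := Set.ncard {e : ℕ →₀ ℕ | genInt p e ≤ x}

/-- `π_P(x)`, the number of generalised primes `≤ x`. -/
noncomputable def countPrimes (p : ℕ → ℝ) (x : ℝ) : ℕ := Set.ncard {j : ℕ | p j ≤ x}

/-- The zeta function `ζ_P(s) = ∑ n^{-s}` over the generalised integers. -/
noncomputable def zetaP (p : ℕ → ℝ) (s : ℂ) : ℂ := ∑' e : ℕ →₀ ℕ, ((genInt p e : ℝ) : ℂ) ^ (-s)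

/-- The main term `∫_2^x (1 - ∑_{ρ ∈ Z} Re u^{ρ-1}) du / log u` of the prime counting function,
that is `li x - ∑_ρ li x^ρ` up to a constant, for a finite multiset `Z` of zeros. -/
noncomputable def primeMain (Z : Multiset ℂ) (x : ℝ) : ℝ :=
  ∫ u in (2 : ℝ)..x, (1 - (Z.map fun ρ => ((u : ℂ) ^ (ρ - 1)).re).sum) / Real.log u

/-- `p` is a system of generalised primes whose zeta function continues to `Re s > 1/2`
with only a simple pole at `1`, with zeros exactly `Z` there (with multiplicity) and with the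
Lindelöf bound, and with square-root error terms in the counting of generalised integers and
of generalised primes.  For `Z = 0` this is the Riemann hypothesis for `p`. -/
structure System (Z : Multiset ℂ) (p : ℕ → ℝ) : Prop where
  primes : GenPrimes p
  summable : ∀ s : ℂ, 1 < s.re → Summable fun e : ℕ →₀ ℕ => ((genInt p e : ℝ) : ℂ) ^ (-s)
  zeta : ∃ g : ℂ → ℂ, DifferentiableOn ℂ g {s : ℂ | 1 / 2 < s.re} ∧
    (∀ s : ℂ, 1 < s.re → (s - 1) * zetaP p s = (Z.map fun ρ => s - ρ).prod * Complex.exp (g s)) ∧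
    ∀ ε : ℝ, 0 < ε → ∃ C : ℝ, ∀ s : ℂ, 1 / 2 + ε ≤ s.re →
      ‖(Z.map fun ρ => s - ρ).prod * Complex.exp (g s)‖ ≤ C * (1 + ‖s‖) ^ (1 + ε)
  ints : ∃ κ : ℝ, 0 < κ ∧ ∀ ε : ℝ, 0 < ε → ∃ C : ℝ, ∀ x : ℝ, 1 ≤ x →
    |(countInts p x : ℝ) - κ * x| ≤ C * x ^ (1 / 2 + ε)
  pnt : ∀ ε : ℝ, 0 < ε → ∃ C : ℝ, ∀ x : ℝ, 2 ≤ x →
    |(countPrimes p x : ℝ) - primeMain Z x| ≤ C * x ^ (1 / 2 + ε)

/-- Bounded Lipschitz functions of `k` real variables. -/
def Test {k : ℕ} (φ : (Fin k → ℝ) → ℝ) : Prop :=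
  (∃ B : ℝ, ∀ x, |φ x| ≤ B) ∧ ∃ L : ℝ≥0, LipschitzWith L φ

/-- The average of `φ (γ n, …, γ (n + k - 1))` over `n < N`. -/
noncomputable def mean {k : ℕ} (φ : (Fin k → ℝ) → ℝ) (γ : ℕ → ℝ) (N : ℕ) : ℝ :=
  (∑ n ∈ Finset.range N, φ fun i => γ (n + i)) / N

/-- The normalised gaps `(p (n + 1) - p n) / log (p n)`. -/
noncomputable def normGap (p : ℕ → ℝ) (n : ℕ) : ℝ := (p (n + 1) - p n) / Real.log (p n)

/-- The total length of the gaps after the generalised primes `p n ≤ x` which have length at least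
`c (log p n)²`. -/
noncomputable def covered (p : ℕ → ℝ) (c x : ℝ) : ℝ :=
  ∑' n, if p n ≤ x ∧ c * Real.log (p n) ^ 2 ≤ p (n + 1) - p n then p (n + 1) - p n else 0

/-- Cramér's constant `limsup (p (n + 1) - p n) / (log p n)²`. -/
noncomputable def cramerConst (p : ℕ → ℝ) : ℝ≥0∞ :=
  limsup (fun n => ENNReal.ofReal ((p (n + 1) - p n) / Real.log (p n) ^ 2)) atTop

open Pool.Agent.H521 Pool.Agent.H521.G in
/-- **Theorem.** Let `γ` be a nonnegative sequence with limiting window statistics, `R` a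
nonincreasing nonnegative function on `(0, ∞)`, `c₀ ∈ [0, ∞]` and `ω → ∞` arbitrarily slowly. There
is a system of generalised primes with Riemann hypothesis (or any other finite set of zeros),
Lindelöf bound and square-root error terms, whose normalised gaps have all the window statistics of
`γ`, for which the gaps of length at least `c log²` cover the proportion `R c` of the line for every
`c` at which `R` is continuous, whose Cramér constant is `c₀`, and for which the error term in the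
prime number theorem is at most `ω(x) log x`, if and only if mass is conserved, that is the limiting
mean of the truncated sequence `min (γ, K)` plus `R c` is at most `1`, and `R` vanishes above `c₀`. -/
theorem result (Z : Multiset ℂ) (hZ : ∀ ρ ∈ Z, 1 / 2 < ρ.re ∧ ρ.re < 1)
    (hZc : Z.map conj = Z) (γ : ℕ → ℝ) (hγ0 : ∀ n, 0 ≤ γ n)
    (hγ : ∀ (k : ℕ) (φ : (Fin k → ℝ) → ℝ), Test φ → ∃ l, Tendsto (mean φ γ) atTop (𝓝 l))
    (R : ℝ → ℝ) (hRa : AntitoneOn R (Ioi 0)) (hR0 : ∀ c, 0 < c → 0 ≤ R c) (c₀ : ℝ≥0∞)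
    (ω : ℝ → ℝ) (hω : Tendsto ω atTop atTop) :
    (∃ p : ℕ → ℝ, System Z p ∧
      (∀ (k : ℕ) (φ : (Fin k → ℝ) → ℝ), Test φ → ∀ l, Tendsto (mean φ γ) atTop (𝓝 l) →
        Tendsto (mean φ (normGap p)) atTop (𝓝 l)) ∧
      (∀ c, 0 < c → ContinuousAt R c → Tendsto (fun x => covered p c x / x) atTop (𝓝 (R c))) ∧
      cramerConst p = c₀ ∧
      ∀ᶠ x in atTop, |(countPrimes p x : ℝ) - primeMain Z x| ≤ ω x * Real.log x) ↔
    (∀ c K ε : ℝ, 0 < c → 0 < K → 0 < ε → ∀ᶠ N : ℕ in atTop,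
      (∑ n ∈ Finset.range N, min (γ n) K) / N + R c ≤ 1 + ε) ∧
      ∀ c : ℝ, 0 < c → c₀ < ENNReal.ofReal c → R c = 0 := by
  have hZ1 : ∀ ρ ∈ Z, ρ.re < 1 := fun ρ h => (hZ ρ h).2
  constructor
  · rintro ⟨p, hS, h1, h2, h3, -⟩
    have hW : SysW Z p := ⟨hS.primes.one_lt, hS.primes.strictMono, hS.primes.tendsto,
      hS.summable, hS.zeta, hS.pnt⟩
    refine ⟨t4_nec hZ1 hW hγ0 (fun φ hB hL => hγ 1 φ ⟨hB, hL⟩) hRa
      (fun φ hB hL l hl => h1 1 φ ⟨hB, hL⟩ l hl) h2, fun c hc hcc => ?_⟩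
    exact t4_nec2 hZ1 hW hRa hR0 h2 hc (by rw [← h3] at hcc; exact hcc)
  · rintro ⟨h1, h2⟩
    obtain ⟨p, hs, h3, h4, h5, h6⟩ := t4_suff hZ1 hZc hγ0 hRa hR0 h1 h2 hω
    refine ⟨p, ⟨⟨by linarith [hs.three_le 0], hs.mono, hs.tendsto⟩, hs.summable, hs.zeta,
      hs.ints, hs.pnt⟩, ?_, h4, h5, h6⟩
    rintro k φ ⟨⟨B, hB⟩, L, hL⟩ l hl
    exact h3 k φ B hB L hL l hl

end Pool.Agent.Results.MP_69be96_nt.GapStatisticsAndLargeGapMass
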