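import Pool.Agent.H523.I1

set_option autoImplicit false

/-!
# Isolated irreducible polynomials with record prime-free surroundings

The analogue over `F_q[t]` (`q` fixed) of prime numbers `p` such that both gaps at `p` are of the
largest known order. Here `n`, the degree, plays the role of `log X`.
-/

namespace Pool.Agent.Results.MP_69be96_nt.IsolatedIrreducibles

open Polynomial Filter

/-- the window is short compared with `2 ^ K` -/
theorem window_small (c : ℝ) (hc : 0 < c) : ∃ K₀ : ℕ, ∀ K : ℕ, K₀ ≤ K →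
    c * (K * (Real.log K) ^ 2 * Real.log (Real.log (Real.log K)) /
      (Real.log (Real.log K)) ^ 2) < 2 ^ K ∧ 1 < Real.log K := by
  obtain ⟨K₁, h1⟩ := Pool.Agent.H523.FF.ev_K 0 0 1 2
  have h2 : Tendsto (fun n : ℕ => (n:ℝ) ^ 3 / 2 ^ n) atTop (nhds 0) :=
    tendsto_pow_const_div_const_pow_of_one_lt 3 (by norm_num)
  have h3 : ∀ᶠ n : ℕ in atTop, (n:ℝ) ^ 3 / 2 ^ n < 1 / c :=
    h2.eventually_lt_const (by positivity)
  obtain ⟨K₂, h3⟩ := Filter.eventually_atTop.mp h3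
  refine ⟨max K₁ K₂, fun K hK => ?_⟩
  obtain ⟨a1, a2, a3, a4, a5, a6, _⟩ := h1 K ((le_max_left _ _).trans hK)
  have h4 := h3 K ((le_max_right _ _).trans hK)
  set l₁ : ℝ := Real.log K with hl₁
  set l₂ : ℝ := Real.log l₁ with hl₂
  set l₃ : ℝ := Real.log l₂ with hl₃
  have hl10 : 0 < l₁ := by linarith
  have hl20 : 0 < l₂ := by linarith
  have hl32 : l₃ ≤ l₂ := by
    have := Real.log_le_sub_one_of_pos hl20; rw [hl₃]; linarith
  have hK0 : (0:ℝ) ≤ K := Nat.cast_nonneg _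
  have hl1K : l₁ ≤ K := by nlinarith
  have hG : (K:ℝ) * l₁ ^ 2 * l₃ / l₂ ^ 2 ≤ K ^ 3 := by
    rw [div_le_iff₀ (by positivity)]
    have e1 : l₃ ≤ l₂ ^ 2 := by nlinarith
    have e2 : l₁ ^ 2 ≤ K ^ 2 := pow_le_pow_left₀ hl10.le hl1K 2
    calc (K:ℝ) * l₁ ^ 2 * l₃ ≤ K * l₁ ^ 2 * l₂ ^ 2 :=
          mul_le_mul_of_nonneg_left e1 (by positivity)
      _ ≤ K * K ^ 2 * l₂ ^ 2 := by
          apply mul_le_mul_of_nonneg_right _ (by positivity)
          exact mul_le_mul_of_nonneg_left e2 hK0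
      _ = K ^ 3 * l₂ ^ 2 := by ring
  refine ⟨?_, by linarith⟩
  rw [div_lt_div_iff₀ (by positivity) hc] at h4
  calc c * (K * l₁ ^ 2 * l₃ / l₂ ^ 2) ≤ c * K ^ 3 := mul_le_mul_of_nonneg_left hG hc.le
    _ = K ^ 3 * c := by ring
    _ < 2 ^ K := by linarith

/-- There is an absolute constant `c > 0` such that, for every finite field `F` with `q` elements,
for all large `K` and all `n` with `2 K ≤ n` and `n ^ 5 ≤ q ^ K`, every monic polynomial `A` of
degree `n` has at a distance `deg (f - A) < n / 2 + K` a monic IRREDUCIBLE polynomial `f` of degree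
`n` which is isolated: for all `h ≠ 0` with `deg h < m`, where
`q ^ m ≤ c K (log K)² log₃ K / (log₂ K)²`, the polynomial `f + h` has a monic irreducible factor of
degree at most `K / log K` and is not irreducible. -/
theorem result : ∃ c : ℝ, 0 < c ∧ ∀ (F : Type) [Field F] [Fintype F], ∃ K₀ : ℕ, ∀ K : ℕ, K₀ ≤ K →
    ∀ n : ℕ, 2 * K ≤ n → (n:ℝ) ^ 5 ≤ (Fintype.card F : ℝ) ^ K →
    ∀ A : F[X], A.Monic → A.natDegree = n →
    ∃ f : F[X], f.Monic ∧ f.natDegree = n ∧ Irreducible f ∧ 2 * (f - A).natDegree < n + 2 * K ∧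
      ∀ (m : ℕ) (h : F[X]), (Fintype.card F : ℝ) ^ m ≤
          c * (K * (Real.log K) ^ 2 * Real.log (Real.log (Real.log K)) /
            (Real.log (Real.log K)) ^ 2) →
        h.degree < m → h ≠ 0 →
        (∃ P : F[X], P.Monic ∧ Irreducible P ∧ (P.natDegree : ℝ) * Real.log K ≤ K ∧ P ∣ f + h) ∧
          ¬ Irreducible (f + h) := by
  obtain ⟨c, hc, H⟩ := Pool.Agent.H523.I1.ff_isolated
  obtain ⟨K₁, hK₁⟩ := window_small c hc
  refine ⟨c, hc, fun F _ _ => ?_⟩
  obtain ⟨K₂, hK₂⟩ := H F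
  refine ⟨max 1 (max K₁ K₂), fun K hK n hKn hn5 A hAm hAn => ?_⟩
  have hK1 : 1 ≤ K := (le_max_left _ _).trans hK
  have hK1' := hK₁ K ((le_max_left _ _).trans ((le_max_right _ _).trans hK))
  obtain ⟨f, hfm, hfn, hfI, hfA, hgap⟩ :=
    hK₂ K ((le_max_right _ _).trans ((le_max_right _ _).trans hK)) n hKn hn5 A hAm hAn
  refine ⟨f, hfm, hfn, hfI, hfA, fun m h hm hh hh0 => ?_⟩
  obtain ⟨P, hP1, hP2, hP3, hP4⟩ := hgap m h hm hh hh0
  refine ⟨⟨P, hP1, hP2, hP3, hP4⟩, fun hirr => ?_⟩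
  have hKr : (1:ℝ) ≤ K := by exact_mod_cast hK1
  have hKnr : 2 * (K:ℝ) ≤ n := by exact_mod_cast hKn
  -- `m ≤ K`
  have hmK : m ≤ K := by
    by_contra hcon
    push Not at hcon
    have hq : (2:ℝ) ≤ (Fintype.card F : ℝ) := Pool.Agent.H523.FF.two_le_card
    have h1 : (2:ℝ) ^ K ≤ (Fintype.card F : ℝ) ^ K := pow_le_pow_left₀ (by norm_num) hq K
    have h2 : (Fintype.card F : ℝ) ^ K ≤ (Fintype.card F : ℝ) ^ m :=
      pow_le_pow_right₀ (by linarith) hcon.le
    linarith [hK1'.1]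
  have hhK : h.degree < f.degree := by
    refine lt_of_lt_of_le hh ?_
    rw [degree_eq_natDegree hfm.ne_zero, hfn]
    exact_mod_cast (by omega : m ≤ n)
  have hdeg : (f + h).natDegree = n := by
    rw [natDegree_add_eq_left_of_degree_lt hhK, hfn]
  have hassoc := (hP2.dvd_irreducible_iff_associated hirr).mp hP4
  have hPdeg : P.natDegree = n := by
    rw [← hdeg]
    exact natDegree_eq_of_degree_eq (degree_eq_degree_of_associated hassoc)
  have h3 : (n:ℝ) ≤ P.natDegree := by rw [hPdeg]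
  have h4 : (P.natDegree : ℝ) ≤ P.natDegree * Real.log K :=
    le_mul_of_one_le_right (Nat.cast_nonneg _) hK1'.2.le
  linarith

end Pool.Agent.Results.MP_69be96_nt.IsolatedIrreducibles
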