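import Mathlib
import Pool.Agent.H569.MS4

namespace Pool.Agent.Results.MP_69be96_nt.MixedRecordChains

open Filter

/-- the scale `log x (log log x)² log log log log x / (log log log x)²`; the gap record of Ford, Green, Konyagin,
Maynard and Tao is `log x log log x log log log log x / log log log x`. -/
noncomputable def f (x : ℝ) : ℝ :=
  Real.log x * (Real.log (Real.log x)) ^ 2 * Real.log (Real.log (Real.log (Real.log x))) /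
    (Real.log (Real.log (Real.log x))) ^ 2

/-- `x ≤ y` are primes, `y ≤ x + L`; any two different primes, the smaller one `≤ y` and the larger one `≥ x`, differ
by at least `g`; all primes in `[x, y]` lie in the classes of `B` modulo `q`; every word of length `ℓ` over `B` is the
sequence of the classes of some increasing sequence of primes in `[x, y]`. -/
def Str (q : ℕ) (B : Finset ℕ) (ℓ : ℕ) (g L : ℝ) (x y : ℕ) : Prop :=
  x.Prime ∧ y.Prime ∧ x ≤ y ∧ (y : ℝ) ≤ x + L ∧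
  (∀ p p' : ℕ, p.Prime → p'.Prime → p < p' → p ≤ y → x ≤ p' → g ≤ (p' : ℝ) - p) ∧
  (∀ p : ℕ, p.Prime → x ≤ p → p ≤ y → p % q ∈ B) ∧
  ∀ w : Fin ℓ → ℕ, (∀ i, w i ∈ B) → ∃ p : Fin ℓ → ℕ, StrictMono p ∧
    ∀ i, (p i).Prime ∧ x ≤ p i ∧ p i ≤ y ∧ p i % q = w i

/-- the number of `x` in `(X, 4 X]` that begin such a string -/
noncomputable def count (q : ℕ) (B : Finset ℕ) (ℓ : ℕ) (g L X : ℝ) : ℕ :=
  Set.ncard {x : ℕ | X < x ∧ (x : ℝ) ≤ 4 * X ∧ ∃ y, Str q B ℓ g L x y}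

theorem result : ∃ η : ℝ, 0 < η ∧
    (∀ k ℓ : ℕ, 1 ≤ k → 1 ≤ ℓ → ∃ κ : ℝ, 0 < κ ∧ ∀ (q : ℕ) (A : Finset ℕ), Squarefree q → A.card = k →
      (∀ a ∈ A, a < q ∧ a.Coprime q) → ∃ C c : ℝ, 0 < c ∧
      ∀ᶠ X : ℝ in atTop, ∀ H : ℝ, C ≤ H → H ≤ c * f X → ∃ B ⊆ A, η * A.card ≤ B.card ∧
        X ^ (4 / 5 : ℝ) ≤ (count q B ℓ (κ * H) H X : ℝ)) ∧
    (∀ (q : ℕ) (A : Finset ℕ), Squarefree q → A.Nonempty → (∀ a ∈ A, a < q ∧ a.Coprime q) →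
      ∃ B ⊆ A, η * A.card ≤ B.card ∧ ∀ ℓ : ℕ, ∃ κ : ℝ, 0 < κ ∧ ∃ᶠ X : ℝ in atTop,
        X ^ (4 / 5 : ℝ) ≤ (count q B ℓ (κ * f X) (f X) X : ℝ)) := by
  obtain ⟨η, hη, H⟩ := Pool.Agent.H569.MS.core
  refine ⟨η, hη, H, fun q A hq hA hA' => ?_⟩
  refine Pool.Agent.H569.MS.fixed hη q A hA fun ℓ hℓ => ?_
  obtain ⟨κ, hκ, h⟩ := H A.card ℓ (Finset.card_pos.2 hA) hℓ
  exact ⟨κ, hκ, h q A hq rfl hA'⟩

end Pool.Agent.Results.MP_69be96_nt.MixedRecordChains
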